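import Pool.Agent.Helper8.DE.Defs
import Pool.Agent.Helper8.DC.PJ

/-!
The connection of `E` as coefficients: compatibility.
-/

set_option autoImplicit false

open scoped Manifold ContDiff

namespace Pool.Agent.Helper98.DE

open Pool.Agent.Helper8.DC Pool.Agent.Helper8.DA Pool.Agent.Helper8.DE

variable {X : Type} [TopologicalSpace X] [ChartedSpace E4 X] [IsManifold (𝓡 4) ∞ X]

theorem crossMat_mulVec (a w : R3) : (crossMat a).mulVec w = crossProduct a w := by
  funext r
  fin_cases r <;>
    simp [crossMat, Matrix.mulVec, dotProduct, Fin.sum_univ_three, cross_apply,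
      Pi.single_apply] <;> ring

/-- E3e -/
theorem adj_compat (P : Bundle X) (i j : P.ι) (y : E4) (hy : y ∈ P.ov i j) (m : Fin 4)
    (r t : Fin 3) :
    pd m (fun z => P.g i j z r t) y +
      ((∑ n, (pd m (P.tr i j) y) n • crossMat (P.A i (P.tr i j y) n)) * P.g i j y) r t =
      (P.g i j y * crossMat (P.A j y m)) r t := by
  have hopen := ov_open P i j
  have hov := hopen.mem_nhds hy
  have hg : ∀ a b, DifferentiableAt ℝ (fun z => P.g i j z a b) y := fun a b =>
    ((P.g_smooth i j a b).contDiffAt hov).differentiableAt (by simp)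
  have hcol : ∀ (M : Matrix (Fin 3) (Fin 3) ℝ) (a : Fin 3),
      M.mulVec (Pi.single t 1) a = M a t := by
    intro M a
    rw [Matrix.mulVec_single_one]
    rfl
  have h := congrFun (P.compat i j y hy m (Pi.single t 1)) r
  rw [Pi.add_apply] at h
  have hd : DifferentiableAt ℝ (fun z => (P.g i j z).mulVec (Pi.single t 1)) y := by
    refine differentiableAt_pi.2 fun a => ?_
    simp only [hcol]
    exact hg a t
  rw [ph_pd_comp hd] at h
  simp only [hcol] at h
  have hR : (P.g i j y * crossMat (P.A j y m)) r t =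
      (P.g i j y).mulVec (crossProduct (P.A j y m) (Pi.single t 1)) r := by
    rw [← hcol (P.g i j y * crossMat (P.A j y m)) r, ← Matrix.mulVec_mulVec, crossMat_mulVec]
  rw [hR, ← h]
  congr 1
  have hL : ((∑ n, (pd m (P.tr i j) y) n • crossMat (P.A i (P.tr i j y) n)) * P.g i j y) r t =
      (∑ n, (pd m (P.tr i j) y) n • crossMat (P.A i (P.tr i j y) n)).mulVec
        ((P.g i j y).mulVec (Pi.single t 1)) r := by
    rw [Matrix.mulVec_mulVec, hcol]
  have hs : (∑ n, (pd m (P.tr i j) y) n • crossMat (P.A i (P.tr i j y) n)).mulVec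
      ((P.g i j y).mulVec (Pi.single t 1)) =
      crossProduct (∑ n, (pd m (P.tr i j) y) n • P.A i (P.tr i j y) n)
        ((P.g i j y).mulVec (Pi.single t 1)) := by
    rw [Matrix.sum_mulVec, map_sum, LinearMap.sum_apply]
    refine Finset.sum_congr rfl fun n _ => ?_
    rw [Matrix.smul_mulVec, crossMat_mulVec, map_smul, LinearMap.smul_apply]
  rw [hL, hs]
  rfl

end Pool.Agent.Helper98.DE
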