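import Pool.Agent.Helper8.DE.SymDefs
import Pool.Agent.Helper8.DC.PE

/-!
Symmetric sections: reduction to a diagonal curvature matrix.
-/

set_option autoImplicit false

namespace Pool.Agent.Helper98.DE

open Pool.Agent.Helper8.DC Pool.Agent.Helper8.DE

/-- the polar form of `quad` (not symmetric) -/
noncomputable def pol (α β : Fin 4 → R3) (F : Fin 4 → Fin 4 → R3) : ℝ :=
  2 * (wedge3 (cm1 α 0) (cm1 β 1) (cmp F 2) + wedge3 (cm1 α 1) (cm1 β 2) (cmp F 0) +
    wedge3 (cm1 α 2) (cm1 β 0) (cmp F 1))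

theorem quad_comb (s : Fin 3 → ℝ) (b : Fin 3 → Fin 4 → R3) (F : Fin 4 → Fin 4 → R3) :
    quad (fun m => ∑ t, s t • b t m) F = ∑ t, ∑ u, (s t * s u) * pol (b t) (b u) F := by
  simp only [quad, pol, wedge3, wed, wedge, cm1, Pool.Agent.Helper8.DC.cmp, Finset.sum_apply, Pi.smul_apply, smul_eq_mul,
    Fin.sum_univ_three]
  ring

theorem constr_comb (s : Fin 3 → ℝ) (b : Fin 3 → Fin 4 → R3) (F : Fin 4 → Fin 4 → R3)
    (h : ∀ t, Constr (b t) F) : Constr (fun m => ∑ t, s t • b t m) F := by
  intro β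
  have h1 : ∑ a, wedge3 (cm1 (fun m => ∑ t, s t • b t m) a) β (cmp F a) =
      ∑ t, s t * ∑ a, wedge3 (cm1 (b t) a) β (cmp F a) := by
    simp only [wedge3, wed, wedge, cm1, Pool.Agent.Helper8.DC.cmp, Finset.sum_apply, Pi.smul_apply, smul_eq_mul,
      Fin.sum_univ_three]
    ring
  rw [h1]
  refine Finset.sum_eq_zero fun t _ => ?_
  rw [h t β, mul_zero]

/-- Y2, with the diagonal case as a hypothesis -/
theorem sym_nonneg_of
    (sym_diag : ∀ (F : Fin 4 → Fin 4 → R3) (_ : Skew F)
      (_ : gram F 0 1 = 0) (_ : gram F 0 2 = 0) (_ : gram F 1 2 = 0)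
      (_ : ∀ a, 0 < gram F a a)
      (_ : ∀ u : Fin 4 → ℝ, quad (fun m a => val F u (Pi.single m 1) a) F ≤ 0)
      (_ : 0 ≤ (gram F 1 1 + gram F 2 2 - gram F 0 0) * (gram F 0 0 + gram F 2 2 - gram F 1 1) *
        (gram F 0 0 + gram F 1 1 - gram F 2 2) + 24 * (gram F 0 0 * gram F 1 1 * gram F 2 2))
      (c : Fin 3 → Fin 4 → R3) (_ : ∀ r m a, c r m a = c a m r)
      (_ : ∀ r, Constr (c r) F), 0 ≤ ∑ r, quad (c r) F)
    (F : Fin 4 → Fin 4 → R3) (hs : Skew F) (hF : PosDef F) (hpin : WeakPinched F)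
    (c : Fin 3 → Fin 4 → R3) (hsym : ∀ r m a, c r m a = c a m r)
    (hc : ∀ r, Constr (c r) F) : 0 ≤ ∑ r, quad (c r) F := by
  obtain ⟨R, hR, hdiag⟩ := rot_diag (gram F) (gram_symm F)
  have hR1 : R.transpose * R = 1 := by
    have := (Matrix.mem_specialOrthogonalGroup_iff.mp hR).1
    rw [Matrix.mem_orthogonalGroup_iff'] at this
    simpa [Matrix.star_eq_conjTranspose] using this
  have hR2 : R * R.transpose = 1 := mul_eq_one_comm.mp hR1
  have e : ∀ a b, ∑ r, R r a * R r b = if a = b then 1 else 0 := by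
    intro a b
    have := congrFun (congrFun hR1 a) b
    simpa [Matrix.mul_apply, Matrix.one_apply] using this
  set F' : Fin 4 → Fin 4 → R3 := fun l m => R.mulVec (F l m) with hF'
  have hg : gram F' = R * gram F * R.transpose := gram_rot R F
  have hs' : Skew F' := by
    intro l m
    simp only [hF']
    rw [hs l m, Matrix.mulVec_neg]
  have htr : (gram F').trace = (gram F).trace := by
    rw [hg, Matrix.trace_mul_comm, ← Matrix.mul_assoc, hR1, Matrix.one_mul]
  have hdR : R.det * R.transpose.det = 1 := by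
    rw [← Matrix.det_mul, hR2, Matrix.det_one]
  have hconj : ∀ N : Matrix (Fin 3) (Fin 3) ℝ, (R * N * R.transpose).det = N.det := by
    intro N
    rw [Matrix.det_mul, Matrix.det_mul]
    calc R.det * N.det * R.transpose.det = R.det * R.transpose.det * N.det := by ring
      _ = N.det := by rw [hdR, one_mul]
  have hpos : ∀ a, 0 < gram F' a a := by
    intro a
    have hrow : (fun b => R a b) ≠ 0 := by
      intro h0
      have := congrFun (congrFun hR2 a) a
      simp only [Matrix.mul_apply, Matrix.transpose_apply, Matrix.one_apply_eq] at this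
      have h1 : ∀ b, R a b = 0 := fun b => congrFun h0 b
      simp [h1] at this
    have := gram_pos F hs hF (fun b => R a b) hrow
    rw [hg]
    simp only [Matrix.mul_apply, Matrix.transpose_apply]
    refine lt_of_lt_of_eq this ?_
    rw [Finset.sum_comm]
    refine Finset.sum_congr rfl fun b _ => ?_
    rw [Finset.sum_mul]
  have hoff : ∀ a b, a ≠ b → gram F' a b = 0 := by
    intro a b hab
    rw [hg]
    exact hdiag a b hab
  have hU : ∀ u : Fin 4 → ℝ, quad (fun m a => val F' u (Pi.single m 1) a) F' ≤ 0 := by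
    intro u
    have h1 : (fun (m : Fin 4) (a : Fin 3) => val F' u (Pi.single m 1) a) =
        fun m => R.mulVec (fun a => val F u (Pi.single m 1) a) := by
      funext m
      exact val_rot R F u (Pi.single m 1)
    rw [h1, hF', quad_rot R hR]
    exact urb_neg F hs hF u
  have hp2 : 0 ≤ (gram F' 1 1 + gram F' 2 2 - gram F' 0 0) *
      (gram F' 0 0 + gram F' 2 2 - gram F' 1 1) * (gram F' 0 0 + gram F' 1 1 - gram F' 2 2) +
        24 * (gram F' 0 0 * gram F' 1 1 * gram F' 2 2) := by
    have h := hpin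
    unfold WeakPinched at h
    have h1 : ((gram F).trace • (1 : Matrix (Fin 3) (Fin 3) ℝ) - (2 : ℝ) • gram F).det =
        ((gram F').trace • (1 : Matrix (Fin 3) (Fin 3) ℝ) - (2 : ℝ) • gram F').det := by
      rw [← hconj ((gram F).trace • (1 : Matrix (Fin 3) (Fin 3) ℝ) - (2 : ℝ) • gram F), htr, hg]
      congr 1
      rw [Matrix.mul_sub, Matrix.sub_mul, Matrix.mul_smul, Matrix.smul_mul, Matrix.mul_one, hR2,
        Matrix.mul_smul, Matrix.smul_mul]
    have h2 : (gram F).det = (gram F').det := by rw [hg, hconj]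
    rw [h1, h2, Matrix.det_fin_three, Matrix.det_fin_three] at h
    simp only [Matrix.trace, Matrix.diag, Fin.sum_univ_three, Matrix.sub_apply, Matrix.smul_apply,
      smul_eq_mul, Matrix.one_apply_eq] at h
    rw [hoff 0 1 (by decide), hoff 0 2 (by decide), hoff 1 2 (by decide), hoff 1 0 (by decide),
      hoff 2 0 (by decide), hoff 2 1 (by decide), Matrix.one_apply_ne (by decide : (0 : Fin 3) ≠ 1),
      Matrix.one_apply_ne (by decide : (0 : Fin 3) ≠ 2),
      Matrix.one_apply_ne (by decide : (1 : Fin 3) ≠ 2),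
      Matrix.one_apply_ne (by decide : (1 : Fin 3) ≠ 0),
      Matrix.one_apply_ne (by decide : (2 : Fin 3) ≠ 0),
      Matrix.one_apply_ne (by decide : (2 : Fin 3) ≠ 1)] at h
    refine h.trans_eq ?_
    ring
  -- the rotated section
  let b : Fin 3 → Fin 4 → R3 := fun t m => R.mulVec (c t m)
  have h1 := sym_diag F' hs' (hoff 0 1 (by decide)) (hoff 0 2 (by decide)) (hoff 1 2 (by decide))
    hpos hU hp2 (fun r m => ∑ t, R r t • b t m) (by
      intro r m a
      simp only [b, Finset.sum_apply, Pi.smul_apply, smul_eq_mul, Matrix.mulVec, dotProduct,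
        Finset.mul_sum]
      rw [Finset.sum_comm]
      refine Finset.sum_congr rfl fun u _ => Finset.sum_congr rfl fun t _ => ?_
      rw [hsym t m u]
      ring)
    (fun r => constr_comb (fun t => R r t) b F' fun t => constr_rot R hR (c t) F (hc t))
  have h2 : ∑ r, quad (fun m => ∑ t, R r t • b t m) F' = ∑ r, quad (c r) F := by
    have h3 : ∀ r, quad (fun m => ∑ t, R r t • b t m) F' =
        ∑ t, ∑ u, (R r t * R r u) * pol (b t) (b u) F' := fun r => quad_comb _ b F'
    rw [Finset.sum_congr rfl fun r _ => h3 r, Finset.sum_comm]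
    refine Finset.sum_congr rfl fun t _ => ?_
    rw [Finset.sum_comm]
    have h4 : ∀ u, ∑ r, (R r t * R r u) * pol (b t) (b u) F' =
        (if t = u then 1 else 0) * pol (b t) (b u) F' := by
      intro u
      rw [← Finset.sum_mul, e]
    rw [Finset.sum_congr rfl fun u _ => h4 u]
    simp only [ite_mul, one_mul, zero_mul, Finset.sum_ite_eq, Finset.mem_univ, if_true]
    exact quad_rot R hR (c t) F
  rwa [h2] at h1

end Pool.Agent.Helper98.DE
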